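import Mathlib

set_option autoImplicit false

namespace Pool.Agent.Results.MP_8bdd73_co.Bound

open Finset

theorem level {V : Type} (G : SimpleGraph V) (v : V) :
    ∀ (d : ℕ) (u : V), G.edist v u = d → ∀ k ≤ d, ∃ w, G.edist v w = k := by
  intro d
  induction d with
  | zero => intro u hu k hk; exact ⟨u, by rw [hu, Nat.le_zero.mp hk]⟩
  | succ d ih =>
    intro u hu k hk
    rcases hk.eq_or_lt with rfl | hk
    · exact ⟨u, hu⟩
    obtain ⟨p, hp⟩ := SimpleGraph.exists_walk_of_edist_eq_coe
      ((SimpleGraph.edist_comm).trans hu : G.edist u v = (d + 1 : ℕ))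
    cases p with
    | nil => simp at hp
    | @cons _ w _ h q =>
      refine ih w ?_ k (by omega)
      have hq : q.length = d := by simpa using hp
      have h1 : G.edist v w ≤ d := by
        rw [SimpleGraph.edist_comm, ← hq]; exact SimpleGraph.edist_le q
      have h2 : G.edist v u ≤ G.edist v w + G.edist w u := SimpleGraph.edist_triangle
      rw [hu, SimpleGraph.edist_eq_one_iff_adj.mpr h.symm] at h2
      refine le_antisymm h1 ?_
      push_cast at h2
      exact (ENat.add_le_add_iff_right (by simp)).mp h2

theorem result {V : Type} [Fintype V] [DecidableEq V] (G : SimpleGraph V) [DecidableRel G.Adj]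
    (f : V → ℕ)
    (hb : ∀ v, (∃ u, G.Reachable v u ∧ f v ≤ G.dist v u) ∨ ((∀ u, ¬ G.Adj v u) ∧ f v = 1))
    (hi : ∀ u v, u ≠ v → 0 < f u → 0 < f v → ∀ w, G.edist u w ≤ f u → G.edist v w ≤ f v →
      G.edist u w = f u ∧ G.edist v w = f v) :
    ∑ v, f v + G.minDegree ≤ Fintype.card V := by
  classical
  have lev : ∀ v, (∀ k ≤ f v, ∃ w, G.edist v w = k) ∨ (G.degree v = 0 ∧ f v = 1) := by
    intro v
    rcases hb v with ⟨u, h1, h2⟩ | ⟨h1, h2⟩
    · exact Or.inl fun k hk => level G v _ u h1.coe_dist_eq_edist.symm k (hk.trans h2)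
    · refine Or.inr ⟨?_, h2⟩
      rw [← SimpleGraph.card_neighborFinset_eq_degree, card_eq_zero]
      ext u; simpa using h1 u
  have cnt : ∀ v (K : Finset ℕ), (∀ k ∈ K, ∃ w, G.edist v w = k) →
      K.card ≤ #{w | ∃ k ∈ K, G.edist v w = (k : ℕ)} := by
    intro v K hK
    have : Nonempty V := ⟨v⟩
    choose! g hg using hK
    refine card_le_card_of_injOn g (fun k hk => ?_) (fun a ha b hb' e => ?_)
    · simp only [coe_filter, mem_univ, true_and, Set.mem_ofPred_eq]
      exact ⟨k, hk, hg k hk⟩
    · have := hg a ha
      rw [e, hg b hb'] at this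
      exact_mod_cast this.symm
  have hI : ∀ v, f v ≤ #{w | G.edist v w < f v} := by
    intro v
    have := cnt v (range (f v)) (fun k hk => by
      rcases lev v with h | h
      · exact h k (mem_range.mp hk).le
      · have : k = 0 := by have := mem_range.mp hk; omega
        exact ⟨v, by simp [this]⟩)
    rw [card_range] at this
    refine this.trans (card_le_card fun w hw => ?_)
    simp only [mem_filter, mem_univ, true_and, mem_range] at hw ⊢
    obtain ⟨k, h1, h2⟩ := hw
    rw [h2]; exact_mod_cast h1
  by_cases h0 : ∀ v, f v = 0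
  · simp only [h0, sum_const_zero, zero_add]
    rcases isEmpty_or_nonempty V with h | h
    · simp
    · exact (G.minDegree_le_degree (Classical.arbitrary V)).trans (G.degree_lt_card_verts _).le
  push Not at h0
  obtain ⟨v0, h0⟩ := h0
  have hN : f v0 + G.degree v0 ≤ #{w | G.edist v0 w ≤ f v0} := by
    rcases lev v0 with h | h
    · have h1 := cnt v0 ((range (f v0 + 1)).erase 1) (fun k hk =>
        h k (Nat.lt_succ_iff.mp (mem_range.mp (mem_of_mem_erase hk))))
      rw [card_erase_of_mem (mem_range.mpr (by omega)), card_range, Nat.add_sub_cancel] at h1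
      rw [← SimpleGraph.card_neighborFinset_eq_degree]
      refine (Nat.add_le_add_right h1 _).trans ?_
      rw [← card_union_of_disjoint]
      · refine card_le_card fun w hw => ?_
        simp only [mem_union, mem_filter, mem_univ, true_and, mem_erase, mem_range,
          SimpleGraph.mem_neighborFinset] at hw ⊢
        rcases hw with ⟨k, h2, h3⟩ | hw
        · rw [h3]; exact_mod_cast Nat.lt_succ_iff.mp h2.2
        · rw [SimpleGraph.edist_eq_one_iff_adj.mpr hw]; exact_mod_cast Nat.pos_of_ne_zero h0
      · rw [disjoint_left]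
        intro w hw hw2
        simp only [mem_filter, mem_univ, true_and, mem_erase, SimpleGraph.mem_neighborFinset] at hw hw2
        obtain ⟨k, h2, h3⟩ := hw
        rw [SimpleGraph.edist_eq_one_iff_adj.mpr hw2] at h3
        exact h2.1 (by exact_mod_cast h3.symm)
    · rw [h.1, add_zero]
      refine (hI v0).trans (card_le_card fun w hw => ?_)
      simp only [mem_filter, mem_univ, true_and] at hw ⊢
      exact hw.le
  let S : V → Finset V := fun v =>
    if v = v0 then univ.filter (fun w => G.edist v0 w ≤ f v0) else univ.filter (fun w => G.edist v w < f v)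
  have hS : ∀ v w, w ∈ S v → 0 < f v ∧ G.edist v w ≤ f v ∧ (v ≠ v0 → G.edist v w ≠ f v) := by
    intro v w hw
    by_cases e : v = v0
    · subst e
      simp only [S, if_true, mem_filter, mem_univ, true_and] at hw
      exact ⟨Nat.pos_of_ne_zero h0, hw, fun h => absurd rfl h⟩
    · simp only [S, if_neg e, mem_filter, mem_univ, true_and] at hw
      refine ⟨?_, hw.le, fun _ => hw.ne⟩
      have : (0 : ℕ∞) < f v := lt_of_le_of_lt zero_le hw
      exact_mod_cast this
  have h1 : ∑ v, (S v).card ≤ Fintype.card V := by
    rw [← card_biUnion]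
    · exact card_le_univ _
    · intro u _ v _ huv
      rw [Function.onFun, disjoint_left]
      intro w h1 h2
      obtain ⟨a1, a2, a3⟩ := hS u w h1
      obtain ⟨b1, b2, b3⟩ := hS v w h2
      obtain ⟨c1, c2⟩ := hi u v huv a1 b1 w a2 b2
      by_cases e : u = v0
      · exact b3 (fun e' => huv (e.trans e'.symm)) c2
      · exact a3 e c1
  have h2 : ∑ v, (f v + if v = v0 then G.degree v0 else 0) ≤ ∑ v, (S v).card := by
    refine sum_le_sum fun v _ => ?_
    by_cases e : v = v0
    · subst e; simpa [S] using hN
    · simpa [S, e] using hI v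
  rw [sum_add_distrib, sum_ite_eq', if_pos (mem_univ _)] at h2
  have := G.minDegree_le_degree v0
  omega

end Pool.Agent.Results.MP_8bdd73_co.Bound
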